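import Pool.Agent.H98.L.Law

namespace Pool.Agent.Results.MP_ba78e1_pr.NonConvergence

open Filter Topology Pool.Agent.H98.L

/-- Q1 is false: for all sufficiently large m, with d = 3 m and M = 4 m, the law of the root value
under the uniform measure on M-Lipschitz functions on the d-ary tree of depth n with all leaf values
in the interval from 0 to M has no weak limit as n tends to infinity. -/
theorem result :
    (∀ᶠ m : ℕ in atTop, ∀ hd : 1 ≤ 3 * m, ¬ ConvergesAt (3 * m) (4 * m) hd 0) ∧
      ¬ ∀ (d M : ℕ) (hd : 2 ≤ d), 2 ≤ M → ∀ r : ℕ, ConvergesAt d M (one_le_two.trans hd) r := by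
  refine ⟨not_convergesAt, fun h => ?_⟩
  obtain ⟨m, hm1, hm⟩ := (not_convergesAt.and (eventually_ge_atTop 1)).exists
  exact hm1 (one_le_two.trans (by omega : 2 ≤ 3 * m)) (h (3 * m) (4 * m) (by omega) (by omega) 0)

end Pool.Agent.Results.MP_ba78e1_pr.NonConvergence
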